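import Pool.Agent.Helper96.LN.NBa

/-!
# Row NB: few electrons near each nucleus
-/

set_option autoImplicit false

namespace Pool.Agent.Helper96.LN

open MeasureTheory Filter Pool.Agent.Helper95.PW Pool.Agent.Helper95.LN

section pt

variable {n M : ℕ} (b : ℝ) (X : Fin M → R3) (Z : Fin M → ℝ) (x : Cf n)

theorem nb_pt_smooth (hA : ContDiff ℝ (⊤ : ℕ∞) (ph b)) : ContDiff ℝ (⊤ : ℕ∞) (Pt b X Z x) := by
  unfold Pt
  apply ContDiff.sub
  · apply ContDiff.sum
    intro k _
    exact hA.comp (contDiff_id.sub contDiff_const)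
  · apply ContDiff.sum
    intro j _
    exact contDiff_const.mul (hA.comp (contDiff_id.sub contDiff_const))

theorem nb_pd_pt (hA : ContDiff ℝ (⊤ : ℕ∞) (ph b)) (m : Fin 3) (w : R3) :
    pd m (Pt b X Z x) w =
      (∑ k, pd m (ph b) (w - x k)) - ∑ j, Z j * pd m (ph b) (w - X j) := by
  have hd : ∀ c : R3, HasFDerivAt (fun v => ph b (v - c)) (fderiv ℝ (ph b) (w - c)) w := by
    intro c
    rw [hasFDerivAt_comp_sub]
    exact (hA.differentiable (by simp) _).hasFDerivAt
  have h : HasFDerivAt (Pt b X Z x)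
      ((∑ k, fderiv ℝ (ph b) (w - x k)) - ∑ j, Z j • fderiv ℝ (ph b) (w - X j)) w := by
    unfold Pt
    apply HasFDerivAt.fun_sub
    · exact HasFDerivAt.fun_sum fun k _ => hd (x k)
    · exact HasFDerivAt.fun_sum fun j _ => (hd (X j)).const_mul (Z j)
  unfold pd
  rw [h.fderiv]
  simp

end pt

theorem nb_int_prod (b : ℝ) (hA : ContDiff ℝ (⊤ : ℕ∞) (ph b)) (F : R3 → ℝ)
    (hF : ContDiff ℝ (⊤ : ℕ∞) F) (hc : HasCompactSupport F) (c : R3) :
    Integrable (fun w => ∑ i, pd i (ph b) (w - c) * pd i F w) := by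
  apply integrable_finsetSum
  intro m _
  apply Continuous.integrable_of_hasCompactSupport
  · exact ((nb_pd_cont _ hA m).comp (continuous_id.sub continuous_const)).mul
      (nb_pd_cont _ hF m)
  · exact (nb_pd_cs _ hc m).mul_left

theorem nb_green (hG : ST_GRD) {n M : ℕ} (b : ℝ) (hb : 0 < b) (X : Fin M → R3) (Z : Fin M → ℝ)
    (x : Cf n) (hA : ContDiff ℝ (⊤ : ℕ∞) (ph b)) (F : R3 → ℝ)
    (hF : ContDiff ℝ (⊤ : ℕ∞) F) (hc : HasCompactSupport F) :
    ∫ w, ∑ i, pd i (Pt b X Z x) w * pd i F w =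
      (∑ k, ∫ w, F w * et b (w - x k)) - ∑ j, Z j * ∫ w, F w * et b (w - X j) := by
  have e : (fun w => ∑ i, pd i (Pt b X Z x) w * pd i F w) = fun w =>
      (∑ k, ∑ i, pd i (ph b) (w - x k) * pd i F w) -
        ∑ j, Z j * ∑ i, pd i (ph b) (w - X j) * pd i F w := by
    funext w
    rw [Finset.sum_comm]
    simp only [Finset.mul_sum]
    rw [Finset.sum_comm (f := fun j i => Z j * (pd i (ph b) (w - X j) * pd i F w)),
      ← Finset.sum_sub_distrib]
    apply Finset.sum_congr rfl
    intro i _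
    rw [nb_pd_pt b X Z x hA, sub_mul, Finset.sum_mul, Finset.sum_mul]
    simp only [mul_assoc]
  rw [e, integral_sub, integral_finsetSum, integral_finsetSum]
  · congr 1
    · apply Finset.sum_congr rfl
      intro k _
      exact hG b (x k) F hb hF hc
    · apply Finset.sum_congr rfl
      intro j _
      rw [integral_const_mul, hG b (X j) F hb hF hc]
  · intro j _
    exact (nb_int_prod b hA F hF hc (X j)).const_mul _
  · intro k _
    exact nb_int_prod b hA F hF hc (x k)
  · exact integrable_finsetSum _ fun k _ => nb_int_prod b hA F hF hc (x k)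
  · exact integrable_finsetSum _ fun j _ => (nb_int_prod b hA F hF hc (X j)).const_mul _

/-- one nucleus -/
theorem nb_one (hG : ST_GRD) (hA : ST_PHA) (hC : ST_PHC) (d : ℝ) (hd : 0 < d) {n M : ℕ}
    (X : Fin M → R3) (Z : Fin M → ℝ) (x : Cf n) (hX : Sep X d) (hZ : ∀ j, 0 ≤ Z j) (i : Fin M) :
    kap * cnt X (3 / 2 * d) x i ≤ Z i * kap +
      ∫ w, ∑ m, pd m (Pt (d / 8) X Z x) w * pd m (nbT d (X i)) w := by
  obtain ⟨hcb, hkap, ⟨C0, hC0, hC0b⟩, hC'⟩ := hC
  have hb : 0 < d / 8 := by positivity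
  obtain ⟨hes, hepos, hezero, -, -, heint⟩ := hC' (d / 8) hb
  have hFs := nbT_smooth d (X i)
  have hFc := nbT_cs d hd (X i)
  have hFi : ∀ c : R3, Integrable (fun w => nbT d (X i) w * et (d / 8) (w - c)) := by
    intro c
    apply Continuous.integrable_of_hasCompactSupport
    · exact hFs.continuous.mul (hes.continuous.comp (continuous_id.sub continuous_const))
    · exact hFc.mul_right
  have hec : HasCompactSupport (et (d / 8)) := by
    apply HasCompactSupport.intro (isCompact_closedBall (0 : R3) (d / 8))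
    intro y hy
    apply hezero
    rw [mem_closedBall_zero_iff, not_le] at hy
    exact hy.le.trans (nb_norm_le y)
  have hei : Integrable (et (d / 8)) :=
    hes.continuous.integrable_of_hasCompactSupport hec
  have heic : ∀ c : R3, Integrable (fun w => et (d / 8) (w - c)) := fun c =>
    hei.comp_sub_right c
  have heval : ∀ c : R3, ∫ w, et (d / 8) (w - c) = kap := by
    intro c
    rw [integral_sub_right_eq_self (fun w => et (d / 8) w) c, heint]
  have hpos : ∀ c : R3, 0 ≤ ∫ w, nbT d (X i) w * et (d / 8) (w - c) := fun c =>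
    integral_nonneg fun w => mul_nonneg (nbF_nonneg _ _) (hepos _)
  have hle : ∀ c : R3, ∫ w, nbT d (X i) w * et (d / 8) (w - c) ≤ kap := by
    intro c
    rw [← heval c]
    apply integral_mono (hFi c) (heic c)
    intro w
    have h1 : nbT d (X i) w ≤ 1 := nbF_le _ _
    have h2 : 0 ≤ et (d / 8) (w - c) := hepos _
    show nbT d (X i) w * et (d / 8) (w - c) ≤ et (d / 8) (w - c)
    nlinarith
  have hnear : ∀ c : R3, nr (c - X i) < 3 / 2 * d →
      ∫ w, nbT d (X i) w * et (d / 8) (w - c) = kap := by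
    intro c hc
    rw [← heval c]
    apply integral_congr_ae
    apply Eventually.of_forall
    intro w
    show nbT d (X i) w * et (d / 8) (w - c) = et (d / 8) (w - c)
    by_cases hw : d / 8 ≤ nr (w - c)
    · rw [hezero _ hw, mul_zero]
    · push Not at hw
      have h1 : nbT d (X i) w = 1 := by
        apply nbF_one d hd
        have := nb_nr_tri w c (X i)
        linarith
      rw [h1, one_mul]
  have hfar : ∀ j : Fin M, j ≠ i → ∫ w, nbT d (X i) w * et (d / 8) (w - X j) = 0 := by
    intro j hj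
    have h0 : (fun w => nbT d (X i) w * et (d / 8) (w - X j)) = fun _ => (0 : ℝ) := by
      funext w
      by_cases hw : d / 8 ≤ nr (w - X j)
      · rw [hezero _ hw, mul_zero]
      · push Not at hw
        have h1 : nbT d (X i) w = 0 := by
          apply nbF_zero d hd
          have h2 := nb_nr_tri (X j) w (X i)
          have h3 := hX j i hj
          rw [nb_nr_comm (X j) w] at h2
          linarith
        rw [h1, zero_mul]
    rw [h0, integral_zero]
  rw [nb_green hG (d / 8) hb X Z x (hA (d / 8) hb).1 (nbT d (X i)) hFs hFc]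
  have h1 : kap * cnt X (3 / 2 * d) x i ≤ ∑ k, ∫ w, nbT d (X i) w * et (d / 8) (w - x k) := by
    unfold cnt
    rw [Finset.mul_sum]
    apply Finset.sum_le_sum
    intro k _
    split_ifs with h
    · rw [mul_one, hnear _ h]
    · rw [mul_zero]
      exact hpos _
  have h2 : ∑ j, Z j * ∫ w, nbT d (X i) w * et (d / 8) (w - X j) ≤ Z i * kap := by
    rw [Finset.sum_eq_single i]
    · exact mul_le_mul_of_nonneg_left (hle _) (hZ i)
    · intro j _ hj
      rw [hfar j hj, mul_zero]
    · intro h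
      exact absurd (Finset.mem_univ i) h
  linarith

/-- Cauchy and Schwarz on the ball -/
theorem nb_cs (hA : ST_PHA) (hD : ST_DEX) (d : ℝ) (hd : 0 < d) {n M : ℕ}
    (X : Fin M → R3) (Z : Fin M → ℝ) (x : Cf n) (i : Fin M) :
    (∫ w, ∑ m, pd m (Pt (d / 8) X Z x) w * pd m (nbT d (X i)) w) ^ 2 ≤
      (∫ w in {w | nr (w - X i) < 2 * d}, ∑ m, pd m (Pt (d / 8) X Z x) w ^ 2) * nbJ d := by
  have hb : 0 < d / 8 := by positivity
  have hPs := nb_pt_smooth (d / 8) X Z x (hA (d / 8) hb).1
  have hint := (hD (d / 8) n M X Z x hb).1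
  have hprod : Integrable
      (fun w => ∑ m, pd m (Pt (d / 8) X Z x) w * pd m (nbT d (X i)) w) := by
    apply integrable_finsetSum
    intro m _
    apply Continuous.integrable_of_hasCompactSupport
    · exact (nb_pd_cont _ hPs m).mul (nb_pd_cont _ (nbT_smooth d (X i)) m)
    · exact (nb_pd_cs _ (nbT_cs d hd (X i)) m).mul_left
  have hJi := nbJ_int d hd (X i)
  have e1 : ∫ w in {w | nr (w - X i) < 2 * d},
      ∑ m, pd m (Pt (d / 8) X Z x) w * pd m (nbT d (X i)) w =
      ∫ w, ∑ m, pd m (Pt (d / 8) X Z x) w * pd m (nbT d (X i)) w := by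
    apply setIntegral_eq_integral_of_forall_compl_eq_zero
    intro w hw
    apply Finset.sum_eq_zero
    intro m _
    rw [nb_pd_zero d hd (X i) w m (not_lt.mp hw), mul_zero]
  have e2 : ∫ w in {w | nr (w - X i) < 2 * d}, ∑ m, pd m (nbT d (X i)) w ^ 2 = nbJ d := by
    rw [← nbJ_eq d (X i)]
    apply setIntegral_eq_integral_of_forall_compl_eq_zero
    intro w hw
    apply Finset.sum_eq_zero
    intro m _
    rw [nb_pd_zero d hd (X i) w m (not_lt.mp hw)]
    ring
  apply nb_disc
  intro t
  have e3 : (∫ w in {w | nr (w - X i) < 2 * d}, ∑ m, pd m (Pt (d / 8) X Z x) w ^ 2) * (t * t) +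
      2 * (∫ w, ∑ m, pd m (Pt (d / 8) X Z x) w * pd m (nbT d (X i)) w) * t + nbJ d =
      ∫ w in {w | nr (w - X i) < 2 * d},
        ∑ m, (t * pd m (Pt (d / 8) X Z x) w + pd m (nbT d (X i)) w) ^ 2 := by
    have e4 : (fun w => ∑ m, (t * pd m (Pt (d / 8) X Z x) w + pd m (nbT d (X i)) w) ^ 2) =
        fun w => (t * t) * (∑ m, pd m (Pt (d / 8) X Z x) w ^ 2) +
          (2 * t) * (∑ m, pd m (Pt (d / 8) X Z x) w * pd m (nbT d (X i)) w) +
          ∑ m, pd m (nbT d (X i)) w ^ 2 := by
      funext w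
      rw [Finset.mul_sum, Finset.mul_sum, ← Finset.sum_add_distrib, ← Finset.sum_add_distrib]
      apply Finset.sum_congr rfl
      intro m _
      ring
    rw [e4, integral_add, integral_add, integral_const_mul, integral_const_mul, e1, e2]
    · ring
    · exact (hint.integrableOn.integrable).const_mul _
    · exact (hprod.integrableOn.integrable).const_mul _
    · exact ((hint.integrableOn.integrable).const_mul _).add
        ((hprod.integrableOn.integrable).const_mul _)
    · exact hJi.integrableOn.integrable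
  rw [e3]
  exact integral_nonneg fun w => Finset.sum_nonneg fun m _ => sq_nonneg _

/-- the balls are disjoint -/
theorem nb_balls (hD : ST_DEX) (d : ℝ) (hd : 0 < d) {n M : ℕ}
    (X : Fin M → R3) (Z : Fin M → ℝ) (x : Cf n) (hX : Sep X d) :
    ∑ i, (∫ w in {w | nr (w - X i) < 2 * d}, ∑ m, pd m (Pt (d / 8) X Z x) w ^ 2) ≤
      ∫ w, ∑ m, pd m (Pt (d / 8) X Z x) w ^ 2 := by
  have hb : 0 < d / 8 := by positivity
  have hint := (hD (d / 8) n M X Z x hb).1
  rw [← integral_biUnion_finset]
  · apply setIntegral_le_integral hint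
    exact Eventually.of_forall fun w => Finset.sum_nonneg fun m _ => sq_nonneg _
  · intro i _
    exact (isOpen_lt (nb_nr_cont.comp (continuous_id.sub continuous_const))
      continuous_const).measurableSet
  · intro i _ j _ hij
    show Disjoint {w | nr (w - X i) < 2 * d} {w | nr (w - X j) < 2 * d}
    rw [Set.disjoint_left]
    intro w h1 h2
    have h1' : nr (w - X i) < 2 * d := h1
    have h2' : nr (w - X j) < 2 * d := h2
    have h3 := nb_nr_tri (X i) w (X j)
    rw [nb_nr_comm (X i) w] at h3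
    have h4 := hX i j hij
    linarith
  · intro i _
    exact hint.integrableOn

theorem NB (hG : ST_GRD) (hA : ST_PHA) (_hB : ST_PHB) (hC : ST_PHC) (hD : ST_DEX) : ST_NB := by
  intro z d hz hd
  have hkap : 0 < kap := hC.2.1
  refine ⟨2 * z ^ 2 + 2 * nbJ d / kap + 1, ?_, ?_⟩
  · have := nbJ_nonneg d
    positivity
  · intro n M X Z x hX hZ hZz
    have hJ := nbJ_nonneg d
    have hint0 : 0 ≤ ∫ w, ∑ m, pd m (Pt (d / 8) X Z x) w ^ 2 :=
      integral_nonneg fun w => Finset.sum_nonneg fun m _ => sq_nonneg _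
    have hone : ∀ i, kap ^ 2 * cnt X (3 / 2 * d) x i ^ 2 ≤ 2 * z ^ 2 * kap ^ 2 + 2 * (nbJ d *
        ∫ w in {w | nr (w - X i) < 2 * d}, ∑ m, pd m (Pt (d / 8) X Z x) w ^ 2) := by
      intro i
      have h1 := nb_one hG hA hC d hd X Z x hX hZ i
      have h2 := nb_cs hA hD d hd X Z x i
      have hc : 0 ≤ cnt X (3 / 2 * d) x i := by
        unfold cnt
        apply Finset.sum_nonneg
        intro k _
        split_ifs <;> norm_num
      have h3 : 0 ≤ kap * cnt X (3 / 2 * d) x i := mul_nonneg hkap.le hc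
      have h4 : kap * cnt X (3 / 2 * d) x i ≤ z * kap +
          ∫ w, ∑ m, pd m (Pt (d / 8) X Z x) w * pd m (nbT d (X i)) w := by
        have := mul_le_mul_of_nonneg_right (hZz i) hkap.le
        linarith
      have h5 := mul_self_le_mul_self h3 h4
      nlinarith [sq_nonneg (z * kap -
        ∫ w, ∑ m, pd m (Pt (d / 8) X Z x) w * pd m (nbT d (X i)) w)]
    have hsum : kap ^ 2 * ∑ i, cnt X (3 / 2 * d) x i ^ 2 ≤
        2 * z ^ 2 * kap ^ 2 * M + 2 * (nbJ d *
          ∫ w, ∑ m, pd m (Pt (d / 8) X Z x) w ^ 2) := by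
      rw [Finset.mul_sum]
      refine (Finset.sum_le_sum fun i _ => hone i).trans ?_
      rw [Finset.sum_add_distrib, ← Finset.mul_sum, ← Finset.mul_sum]
      have h6 := mul_le_mul_of_nonneg_left (nb_balls hD d hd X Z x hX) hJ
      rw [Finset.mul_sum] at h6
      simp only [Finset.sum_const, Finset.card_univ, Fintype.card_fin, nsmul_eq_mul]
      nlinarith
    have hDn : ∫ w, ∑ m, pd m (Pt (d / 8) X Z x) w ^ 2 = kap * Dn (d / 8) X Z x := by
      unfold Dn
      field_simp
    have hDn0 : 0 ≤ Dn (d / 8) X Z x := by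
      unfold Dn
      positivity
    rw [hDn] at hsum
    have h7 : ∑ i, cnt X (3 / 2 * d) x i ^ 2 ≤
        2 * z ^ 2 * M + 2 * nbJ d / kap * Dn (d / 8) X Z x := by
      have h8 : kap ^ 2 * (2 * z ^ 2 * M + 2 * nbJ d / kap * Dn (d / 8) X Z x) =
          2 * z ^ 2 * kap ^ 2 * M + 2 * (nbJ d * (kap * Dn (d / 8) X Z x)) := by
        field_simp
      have h9 : 0 < kap ^ 2 := by positivity
      apply le_of_mul_le_mul_left _ h9
      rw [h8]
      exact hsum
    have h10 : 0 ≤ 2 * nbJ d / kap := by positivity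
    have h11 : (0 : ℝ) ≤ M := Nat.cast_nonneg M
    have h12 := mul_nonneg h10 h11
    have h13 := mul_nonneg (sq_nonneg z) hDn0
    nlinarith

end Pool.Agent.Helper96.LN
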