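import Pool.Agent.Helper95.LN.Stmts

/-!
# Row NB, part 1: bump functions
-/

set_option autoImplicit false

namespace Pool.Agent.Helper96.LN

open MeasureTheory Filter Pool.Agent.Helper95.PW

theorem nb_nr (y : R3) : nr y = ‖(WithLp.toLp 2 y : EuclideanSpace ℝ (Fin 3))‖ := by
  rw [EuclideanSpace.norm_eq, nr, Fin.sum_univ_three]
  simp [Real.norm_eq_abs, sq_abs]

theorem nb_nr_add (u v : R3) : nr (u + v) ≤ nr u + nr v := by
  rw [nb_nr, nb_nr, nb_nr, WithLp.toLp_add]
  exact norm_add_le _ _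

theorem nb_nr_neg (u : R3) : nr (-u) = nr u := by
  unfold nr
  simp

theorem nb_nr_nonneg (u : R3) : 0 ≤ nr u := Real.sqrt_nonneg _

theorem nb_nr_tri (u v w : R3) : nr (u - w) ≤ nr (u - v) + nr (v - w) := by
  have h := nb_nr_add (u - v) (v - w)
  have e : u - v + (v - w) = u - w := by abel
  rwa [e] at h

theorem nb_nr_comm (u v : R3) : nr (u - v) = nr (v - u) := by
  rw [← nb_nr_neg (u - v), neg_sub]

theorem nb_nr_cont : Continuous (nr : R3 → ℝ) := by
  unfold nr
  fun_prop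

/-- the square of `nr` -/
noncomputable def nbq (y : R3) : ℝ := y 0 ^ 2 + y 1 ^ 2 + y 2 ^ 2

theorem nbq_eq (y : R3) : nbq y = nr y ^ 2 := by
  unfold nr nbq
  rw [Real.sq_sqrt (by positivity)]

/-- bump -/
noncomputable def nbF (d : ℝ) (y : R3) : ℝ :=
  Real.smoothTransition (((19 / 10 * d) ^ 2 - nbq y) / ((19 / 10 * d) ^ 2 - (13 / 8 * d) ^ 2))

theorem nbF_den (d : ℝ) (hd : 0 < d) : 0 < (19 / 10 * d) ^ 2 - (13 / 8 * d) ^ 2 := by
  have : (19 / 10 * d) ^ 2 - (13 / 8 * d) ^ 2 = (1551 / 1600) * d ^ 2 := by ring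
  rw [this]
  positivity

theorem nbF_smooth (d : ℝ) : ContDiff ℝ (⊤ : ℕ∞) (nbF d) := by
  unfold nbF nbq
  apply Real.smoothTransition.contDiff.comp
  fun_prop

theorem nbF_nonneg (d : ℝ) (y : R3) : 0 ≤ nbF d y := Real.smoothTransition.nonneg _

theorem nbF_le (d : ℝ) (y : R3) : nbF d y ≤ 1 := Real.smoothTransition.le_one _

theorem nbF_one (d : ℝ) (hd : 0 < d) (y : R3) (hy : nr y ≤ 13 / 8 * d) : nbF d y = 1 := by
  unfold nbF
  apply Real.smoothTransition.one_of_one_le
  rw [le_div_iff₀ (nbF_den d hd), nbq_eq]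
  have h := nb_nr_nonneg y
  nlinarith [mul_le_mul hy hy h (by positivity)]

theorem nbF_zero (d : ℝ) (hd : 0 < d) (y : R3) (hy : 19 / 10 * d ≤ nr y) : nbF d y = 0 := by
  unfold nbF
  apply Real.smoothTransition.zero_of_nonpos
  apply div_nonpos_of_nonpos_of_nonneg _ (nbF_den d hd).le
  rw [nbq_eq]
  nlinarith [mul_le_mul hy hy (by positivity) (nb_nr_nonneg y)]

theorem nb_norm_le (y : R3) : ‖y‖ ≤ nr y := by
  rw [pi_norm_le_iff_of_nonneg (nb_nr_nonneg y)]
  intro i
  rw [Real.norm_eq_abs]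
  unfold nr
  apply Real.abs_le_sqrt
  fin_cases i <;> simp <;> nlinarith [sq_nonneg (y 0), sq_nonneg (y 1), sq_nonneg (y 2)]

theorem nbF_cs (d : ℝ) (hd : 0 < d) : HasCompactSupport (nbF d) := by
  apply HasCompactSupport.intro (isCompact_closedBall (0 : R3) (19 / 10 * d))
  intro y hy
  apply nbF_zero d hd
  rw [mem_closedBall_zero_iff, not_le] at hy
  exact hy.le.trans (nb_norm_le y)

/-- translated bump -/
noncomputable def nbT (d : ℝ) (c : R3) (w : R3) : ℝ := nbF d (w - c)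

theorem nbT_smooth (d : ℝ) (c : R3) : ContDiff ℝ (⊤ : ℕ∞) (nbT d c) := by
  unfold nbT
  exact (nbF_smooth d).comp (contDiff_id.sub contDiff_const)

theorem nbT_cs (d : ℝ) (hd : 0 < d) (c : R3) : HasCompactSupport (nbT d c) := by
  apply HasCompactSupport.intro (isCompact_closedBall c (19 / 10 * d))
  intro y hy
  apply nbF_zero d hd
  rw [Metric.mem_closedBall, not_le, dist_eq_norm] at hy
  exact hy.le.trans (nb_norm_le _)

theorem nb_pd_sub (f : R3 → ℝ) (m : Fin 3) (c w : R3) :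
    pd m (fun v => f (v - c)) w = pd m f (w - c) := by
  unfold pd
  rw [fderiv_comp_sub]

theorem nb_pd_cont (f : R3 → ℝ) (hf : ContDiff ℝ (⊤ : ℕ∞) f) (m : Fin 3) :
    Continuous (pd m f) := by
  unfold pd
  exact (hf.continuous_fderiv (by simp)).clm_apply continuous_const

theorem nb_pd_cs (f : R3 → ℝ) (hf : HasCompactSupport f) (m : Fin 3) :
    HasCompactSupport (pd m f) := by
  apply (hf.fderiv (𝕜 := ℝ)).comp_left (g := fun L : R3 →L[ℝ] ℝ => L (Pi.single m 1))
  simp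

/-- energy of the bump -/
noncomputable def nbJ (d : ℝ) : ℝ := ∫ w, ∑ m, pd m (nbF d) w ^ 2

theorem nbJ_int (d : ℝ) (hd : 0 < d) (c : R3) :
    Integrable (fun w => ∑ m, pd m (nbT d c) w ^ 2) := by
  apply integrable_finsetSum
  intro m _
  apply Continuous.integrable_of_hasCompactSupport
  · exact (nb_pd_cont _ (nbT_smooth d c) m).pow 2
  · apply (nb_pd_cs _ (nbT_cs d hd c) m).comp_left (g := fun t : ℝ => t ^ 2)
    simp

theorem nbJ_eq (d : ℝ) (c : R3) : ∫ w, ∑ m, pd m (nbT d c) w ^ 2 = nbJ d := by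
  unfold nbJ
  rw [← integral_sub_right_eq_self (fun w => ∑ m, pd m (nbF d) w ^ 2) c]
  apply integral_congr_ae
  apply Eventually.of_forall
  intro w
  apply Finset.sum_congr rfl
  intro m _
  unfold nbT
  rw [nb_pd_sub]

theorem nbJ_nonneg (d : ℝ) : 0 ≤ nbJ d :=
  integral_nonneg fun _ => Finset.sum_nonneg fun _ _ => sq_nonneg _

/-- the derivative of the bump is zero far away -/
theorem nb_pd_zero (d : ℝ) (hd : 0 < d) (c w : R3) (m : Fin 3) (hw : 2 * d ≤ nr (w - c)) :
    pd m (nbT d c) w = 0 := by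
  unfold pd
  have h : nbT d c =ᶠ[nhds w] fun _ => (0 : ℝ) := by
    have ho : IsOpen {v : R3 | 19 / 10 * d < nr (v - c)} :=
      isOpen_lt continuous_const (nb_nr_cont.comp (continuous_id.sub continuous_const))
    have hm : w ∈ {v : R3 | 19 / 10 * d < nr (v - c)} := by
      simp only [Set.mem_ofPred_eq]
      linarith
    filter_upwards [ho.mem_nhds hm] with v hv
    exact nbF_zero d hd _ (le_of_lt hv)
  rw [h.fderiv_eq]
  simp

/-- Cauchy and Schwarz through the discriminant -/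
theorem nb_disc (I P J : ℝ) (h : ∀ t : ℝ, 0 ≤ I * (t * t) + 2 * P * t + J) : P ^ 2 ≤ I * J := by
  have h1 := discrim_le_zero (a := I) (b := 2 * P) (c := J) h
  unfold discrim at h1
  nlinarith

end Pool.Agent.Helper96.LN
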